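import Mathlib
import Pool.Agent.Y69.TK.KDef

/-!
# Colimits of `K₁(R[π⁻¹(H)])` over the finite subgroups `H` of a quotient

`π : Γ → G` is a homomorphism of groups. If `Z` is a connected free `G`-CW-complex and `Γ` is the
fundamental group of `Z/G`, then `π⁻¹(H)` is the fundamental group of `Z/H` for all subgroups `H` of
`G`.
-/

set_option autoImplicit false

namespace Pool.Agent.L7h59.LF

open Pool.Agent Pool.Agent.Y69 Pool.Agent.Y69.FJ

noncomputable section

variable (R : Type) [CommRing R] {Γ G : Type} [Group Γ] [Group G] (π : Γ →* G)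

/-- The group `K₁(R[π⁻¹(H)])`. -/
def PK (H : Subgroup G) : Type := K1 (MonoidAlgebra R (H.comap π))

instance (H : Subgroup G) : AddCommGroup (PK R π H) :=
  inferInstanceAs (AddCommGroup (K1 (MonoidAlgebra R (H.comap π))))

/-- The homomorphism `π⁻¹(H) → π⁻¹(L)`, `x ↦ γ x γ⁻¹`, if `π(γ) H π(γ)⁻¹ ⊆ L`. -/
def conjP (γ : Γ) {H L : Subgroup G} (h : ∀ x ∈ H, π γ * x * (π γ)⁻¹ ∈ L) :
    H.comap π →* L.comap π :=
  ((MulAut.conj γ).toMonoidHom.comp (H.comap π).subtype).codRestrict (L.comap π) fun x => by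
    show π (γ * x * γ⁻¹) ∈ L
    rw [map_mul, map_mul, map_inv]
    exact h _ x.2

/-- The map `K₁(R[π⁻¹(H)]) → K₁(R[π⁻¹(L)])` induced by a homomorphism of groups. -/
def PK.map {H L : Subgroup G} (φ : H.comap π →* L.comap π) : PK R π H →+ PK R π L :=
  K1.map (MonoidAlgebra.mapDomainRingHom R φ)

/-- The map `K₁(R[π⁻¹(H)]) → K₁(R[Γ])` induced by the inclusion. -/
def PK.incl (H : Subgroup G) : PK R π H →+ K1 (MonoidAlgebra R Γ) :=
  K1.map (MonoidAlgebra.mapDomainRingHom R (H.comap π).subtype)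

/-- The symbols `[H, x]`, `H` a finite subgroup of `G` and `x ∈ K₁(R[π⁻¹(H)])`. -/
def PSym : Type := Σ H : Y69.FinSub G, PK R π H.1

variable {π}

/-- The symbol `[H, x]`. -/
def psym (H : Y69.FinSub G) (x : PK R π H.1) : FreeAbelianGroup (PSym R π) :=
  FreeAbelianGroup.of ⟨H, x⟩

variable (π)

/-- The relations of the colimit: `[H, x + y] = [H, x] + [H, y]`, and `[L, c(x)] = [H, x]` for the
maps `c : K₁(R[π⁻¹(H)]) → K₁(R[π⁻¹(L)])` given by conjugation with `γ ∈ Γ`, `π(γ) H π(γ)⁻¹ ⊆ L`. -/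
def PRel : Set (FreeAbelianGroup (PSym R π)) :=
  {z | (∃ (H : Y69.FinSub G) (x y : PK R π H.1), z = psym R H (x + y) - (psym R H x + psym R H y)) ∨
    ∃ (γ : Γ) (H L : Y69.FinSub G) (h : ∀ x ∈ H.1, π γ * x * (π γ)⁻¹ ∈ L.1) (x : PK R π H.1),
      z = psym R L (PK.map R π (conjP π γ h) x) - psym R H x}

/-- `colim K₁(R[π⁻¹(H)])` over the finite subgroups `H` of `G`. -/
def PColim : Type := FreeAbelianGroup (PSym R π) ⧸ AddSubgroup.closure (PRel R π)

instance : AddCommGroup (PColim R π) :=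
  QuotientAddGroup.Quotient.addCommGroup (AddSubgroup.closure (PRel R π))

/-- The class of `[H, x]`. -/
def PColim.cl (H : Y69.FinSub G) (x : PK R π H.1) : PColim R π := QuotientAddGroup.mk (psym R H x)

end

end Pool.Agent.L7h59.LF
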