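import Pool.Agent.L7h59.LF.Main
import Pool.Agent.L7h76.TW.K1f

/-!
# Locally finite kernels
-/

set_option autoImplicit false

namespace Pool.Agent.L7h59.LF

open Pool.Agent Pool.Agent.Y69 Pool.Agent.Y69.FJ MonoidAlgebra

noncomputable section

variable {Γ G : Type} [Group Γ] [Group G] (π : Γ →* G)

/-- a group which is locally finite by finite is locally finite -/
theorem closure_finite (hker : ∀ s : Finset Γ, (∀ x ∈ s, π x = 1) →
    Finite (Subgroup.closure (s : Set Γ))) (H : Subgroup G) [Finite H] (S : Set Γ)
    (hS : S.Finite) (hSH : ∀ x ∈ S, π x ∈ H) : Finite (Subgroup.closure S) := by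
  classical
  let D : Subgroup Γ := Subgroup.closure S
  have hD : D ≤ H.comap π := (Subgroup.closure_le _).2 hSH
  let f : D →* H := (π.comp D.subtype).codRestrict H fun x => hD x.2
  have h1 : Group.FG D := by
    rw [Group.fg_iff_subgroup_fg]
    exact ⟨hS.toFinset, by rw [hS.coe_toFinset]⟩
  have h2 : f.ker.FiniteIndex := by
    have : Finite (D ⧸ f.ker) :=
      Finite.of_injective _ (QuotientGroup.kerLift_injective f)
    exact Subgroup.finiteIndex_of_finite_quotient
  have h3 : Group.FG f.ker := inferInstance
  obtain ⟨t, ht⟩ := (Group.fg_iff_subgroup_fg _).1 h3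
  have h4 : Finite (Subgroup.closure ((t.image (fun x : D => (x : Γ)) : Finset Γ) : Set Γ)) := by
    apply hker
    intro x hx
    obtain ⟨y, hy, rfl⟩ := Finset.mem_image.1 hx
    have h5 : y ∈ f.ker := by
      rw [← ht]
      exact Subgroup.subset_closure hy
    exact congrArg Subtype.val (MonoidHom.mem_ker.1 h5)
  have h5 : f.ker.map D.subtype =
      Subgroup.closure ((t.image (fun x : D => (x : Γ)) : Finset Γ) : Set Γ) := by
    rw [← ht, MonoidHom.map_closure, Finset.coe_image]
    rfl
  have h6 : Finite f.ker := by
    rw [← h5] at h4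
    exact Finite.of_equiv _ (f.ker.equivMapOfInjective D.subtype D.subtype_injective).symm.toEquiv
  have : Finite (D ⧸ f.ker) := Finite.of_injective _ (QuotientGroup.kerLift_injective f)
  exact Finite.of_equiv _ (Subgroup.groupEquivQuotientProdSubgroup (s := f.ker)).symm

/-- everything comes from finite subgroups if the kernel is locally finite -/
theorem finPart_eq_top (R : Type) [CommRing R] (hker : ∀ s : Finset Γ, (∀ x ∈ s, π x = 1) →
    Finite (Subgroup.closure (s : Set Γ))) (z : PColim R π) : z ∈ finPart R π := by
  classical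
  have key : ∀ (H : Y69.FinSub G) (x : PK R π H.1), PColim.cl R π H x ∈ finPart R π := by
    intro H x
    obtain ⟨s, hs⟩ := Pool.Agent.L7h76.TW.s_K1F.2.1 (MonoidAlgebra R (H.1.comap π)) x
    let S : Finset (H.1.comap π) := s.biUnion fun b => b.coeff.support
    let F : Subgroup Γ := Subgroup.closure (Subtype.val '' (S : Set (H.1.comap π)))
    have := H.2
    have hF : Finite F := closure_finite π hker H.1 _ (S.finite_toSet.image _) (by
      rintro y ⟨w, -, rfl⟩
      exact w.2)
    have h : F ≤ H.1.comap π := by
      apply (Subgroup.closure_le _).2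
      rintro y ⟨w, -, rfl⟩
      exact w.2
    obtain ⟨x', hx'⟩ := hs (MonoidAlgebra R F) (mapDomainRingHom R (Subgroup.inclusion h))
      (MonoidAlgebra.mapDomain_injective (Subgroup.inclusion_injective h)) (by
        intro b hb
        have hsub : (b.coeff.support : Set (H.1.comap π)) ⊆
            Set.range (Subgroup.inclusion h) := by
          intro y hy
          have h7 : (y : Γ) ∈ F :=
            Subgroup.subset_closure ⟨y, Finset.mem_biUnion.2 ⟨b, hb, hy⟩, rfl⟩
          exact ⟨⟨y, h7⟩, Subtype.ext rfl⟩
        exact ⟨_, MonoidAlgebra.mapDomain_comapDomain hsub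
          (Subgroup.inclusion_injective h)⟩)
    refine AddSubgroup.subset_closure ⟨H, F, hF, h, x', ?_⟩
    rw [← hx']
    rfl
  obtain ⟨z, rfl⟩ := QuotientAddGroup.mk'_surjective _ z
  induction z using FreeAbelianGroup.induction_on with
  | zero => rw [map_zero]; exact AddSubgroup.zero_mem _
  | of y => exact key y.1 y.2
  | neg y h => rw [map_neg]; exact AddSubgroup.neg_mem _ h
  | add y z hy hz => rw [map_add]; exact AddSubgroup.add_mem _ hy hz

end

end Pool.Agent.L7h59.LF
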