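import Pool.Agent.L7h59.LF.Def

/-!
# The part of the colimit which comes from finite subgroups
-/

set_option autoImplicit false

namespace Pool.Agent.L7h59.LF

open Pool.Agent Pool.Agent.Y69 Pool.Agent.Y69.FJ MonoidAlgebra

noncomputable section

theorem k1_comp {R S T : Type} [Ring R] [Ring S] [Ring T] (f : R →+* S) (g : S →+* T)
    (x : FJ.K1 R) : FJ.K1.map g (FJ.K1.map f x) = FJ.K1.map (g.comp f) x :=
  K1map_comp f g x

theorem k1_comp_group {R A B C : Type} [CommRing R] [Group A] [Group B] [Group C]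
    (f : A →* B) (g : B →* C) (x : FJ.K1 (MonoidAlgebra R A)) :
    FJ.K1.map (mapDomainRingHom R g) (FJ.K1.map (mapDomainRingHom R f) x) =
      FJ.K1.map (mapDomainRingHom R (g.comp f)) x := by
  rw [k1_comp, mapDomainRingHom_comp']

theorem k1_compat (R : Type) [CommRing R] {G : Type} [Group G] {H K : Subgroup G} (g : G)
    (φ : H →* K) (hφ : ∀ h : H, (φ h : G) = g * h * g⁻¹) (x : FJ.K1 (MonoidAlgebra R H)) :
    FJ.K1.map (mapDomainRingHom R K.subtype) (FJ.K1.map (mapDomainRingHom R φ) x) =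
      FJ.K1.map (mapDomainRingHom R H.subtype) x :=
  K1_compat R g φ hφ x

variable (R : Type) [CommRing R] {Γ G : Type} [Group Γ] [Group G] (π : Γ →* G)

variable {π} in
theorem cl_add (H : Y69.FinSub G) (x y : PK R π H.1) :
    PColim.cl R π H (x + y) = PColim.cl R π H x + PColim.cl R π H y := by
  have h : (QuotientAddGroup.mk (psym R H (x + y) - (psym R H x + psym R H y)) :
      PColim R π) = 0 :=
    (QuotientAddGroup.eq_zero_iff _).2 (AddSubgroup.subset_closure (Or.inl ⟨H, x, y, rfl⟩))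
  exact sub_eq_zero.1 h

/-- `[H, -]` -/
def clH (H : Y69.FinSub G) : PK R π H.1 →+ PColim R π where
  toFun := PColim.cl R π H
  map_zero' := by
    have h := cl_add (π := π) R H 0 0
    rw [add_zero] at h
    exact left_eq_add.1 h
  map_add' := cl_add R H

variable {π} in
theorem cl_conj (γ : Γ) (H L : Y69.FinSub G) (h : ∀ x ∈ H.1, π γ * x * (π γ)⁻¹ ∈ L.1)
    (x : PK R π H.1) :
    PColim.cl R π L (PK.map R π (conjP π γ h) x) = PColim.cl R π H x := by
  have h : (QuotientAddGroup.mk (psym R L (PK.map R π (conjP π γ h) x) - psym R H x) :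
      PColim R π) = 0 :=
    (QuotientAddGroup.eq_zero_iff _).2 (AddSubgroup.subset_closure (Or.inr ⟨γ, H, L, h, x, rfl⟩))
  exact sub_eq_zero.1 h

/-- the values on the symbols -/
def ppre {B : Type} [AddCommGroup B] (f : ∀ H : Y69.FinSub G, PK R π H.1 →+ B) :
    FreeAbelianGroup (PSym R π) →+ B :=
  FreeAbelianGroup.lift fun x => f x.1 x.2

theorem ppre_sym {B : Type} [AddCommGroup B] (f : ∀ H : Y69.FinSub G, PK R π H.1 →+ B)
    (H : Y69.FinSub G) (x : PK R π H.1) : ppre R π f (psym R H x) = f H x :=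
  FreeAbelianGroup.lift_apply_of _ _

/-- lifting out of the colimit -/
def plift {B : Type} [AddCommGroup B] (f : ∀ H : Y69.FinSub G, PK R π H.1 →+ B)
    (hf : ∀ (γ : Γ) (H L : Y69.FinSub G) (h : ∀ x ∈ H.1, π γ * x * (π γ)⁻¹ ∈ L.1)
      (x : PK R π H.1), f L (PK.map R π (conjP π γ h) x) = f H x) : PColim R π →+ B :=
  QuotientAddGroup.lift (AddSubgroup.closure (PRel R π)) (ppre R π f) (by
      rw [AddSubgroup.closure_le]
      rintro z (⟨H, x, y, rfl⟩ | ⟨γ, H, L, h, x, rfl⟩)
      · show ppre R π f _ = 0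
        rw [map_sub, map_add, ppre_sym, ppre_sym, ppre_sym, sub_eq_zero, map_add]
      · show ppre R π f _ = 0
        rw [map_sub, ppre_sym, ppre_sym, sub_eq_zero]
        exact hf γ H L h x)

theorem plift_cl {B : Type} [AddCommGroup B] (f : ∀ H : Y69.FinSub G, PK R π H.1 →+ B)
    (hf : ∀ (γ : Γ) (H L : Y69.FinSub G) (h : ∀ x ∈ H.1, π γ * x * (π γ)⁻¹ ∈ L.1)
      (x : PK R π H.1), f L (PK.map R π (conjP π γ h) x) = f H x) (H : Y69.FinSub G)
    (x : PK R π H.1) : plift R π f hf (PColim.cl R π H x) = f H x :=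
  FreeAbelianGroup.lift_apply_of _ _

/-- the map `colim K₁(R[π⁻¹(H)]) → K₁(R[Γ])` -/
def asm : PColim R π →+ FJ.K1 (MonoidAlgebra R Γ) :=
  plift R π (fun H => PK.incl R π H.1) fun γ H L h x =>
    k1_compat R γ (conjP π γ h) (fun _ => rfl) x

theorem asm_cl (H : Y69.FinSub G) (x : PK R π H.1) :
    asm R π (PColim.cl R π H x) = PK.incl R π H.1 x := plift_cl R π _ _ H x

/-- the image of a finite subgroup -/
def im (F : Y69.FinSub Γ) : Y69.FinSub G :=
  ⟨F.1.map π, by
    have := F.2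
    exact Finite.of_surjective _ (π.subgroupMap_surjective F.1)⟩

/-- `F → π⁻¹(π(F))` -/
def imHom (F : Y69.FinSub Γ) : F.1 →* (im π F).1.comap π :=
  Subgroup.inclusion (Subgroup.le_comap_map π F.1)

/-- the values on the symbols -/
def Jpre : FreeAbelianGroup (FJK.Sym R Γ) →+ PColim R π :=
  FreeAbelianGroup.lift fun s =>
    clH R π (im π s.1) (FJ.K1.map (mapDomainRingHom R (imHom π s.1)) s.2)

theorem Jpre_sym (F : Y69.FinSub Γ) (x : FJK.GK1 R F.1) :
    Jpre R π (FJK.sym F x) =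
      PColim.cl R π (im π F) (FJ.K1.map (mapDomainRingHom R (imHom π F)) x) :=
  FreeAbelianGroup.lift_apply_of _ _

/-- The map from the colimit over the finite subgroups of `Γ`. -/
def J : FJK.ColimK1 R Γ →+ PColim R π :=
  QuotientAddGroup.lift (AddSubgroup.closure (FJK.ColimRel R Γ)) (Jpre R π) (by
      rw [AddSubgroup.closure_le]
      rintro z (⟨F, x, y, rfl⟩ | ⟨F, F', γ, φ, x, hφ, rfl⟩)
      · show Jpre R π _ = 0
        rw [map_sub, map_add, Jpre_sym, Jpre_sym, Jpre_sym, sub_eq_zero]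
        refine Eq.trans ?_ (cl_add R (im π F) _ _)
        congr 1
        exact map_add (FJ.K1.map (mapDomainRingHom R (imHom π F))) x y
      · show Jpre R π _ = 0
        rw [map_sub, Jpre_sym, Jpre_sym, sub_eq_zero]
        have h : ∀ y ∈ (im π F).1, π γ * y * (π γ)⁻¹ ∈ (im π F').1 := by
          rintro y ⟨z, hz, rfl⟩
          refine ⟨γ * z * γ⁻¹, ?_, by rw [map_mul, map_mul, map_inv]⟩
          have h1 := hφ ⟨z, hz⟩
          rw [← h1]
          exact (φ ⟨z, hz⟩).2
        refine Eq.trans ?_ (cl_conj R γ (im π F) (im π F') h _)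
        congr 1
        refine (k1_comp_group φ (imHom π F') x).trans ?_
        refine Eq.trans ?_ (k1_comp_group (imHom π F) (conjP π γ h) x).symm
        congr 2
        apply congrArg
        ext y
        exact hφ y)

theorem J_mk (F : Y69.FinSub Γ) (x : FJK.GK1 R F.1) :
    J R π (QuotientAddGroup.mk (FJK.sym F x)) =
      PColim.cl R π (im π F) (FJ.K1.map (mapDomainRingHom R (imHom π F)) x) :=
  Jpre_sym R π F x

theorem asm_J (x : FJK.ColimK1 R Γ) : asm R π (J R π x) = FJK.assembly R Γ x := by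
  obtain ⟨z, rfl⟩ := QuotientAddGroup.mk'_surjective _ x
  have h : ((asm R π).comp (J R π)).comp (QuotientAddGroup.mk' (AddSubgroup.closure
      (FJK.ColimRel R Γ))) = (FJK.assembly R Γ).comp (QuotientAddGroup.mk' (AddSubgroup.closure
      (FJK.ColimRel R Γ))) := by
    apply FreeAbelianGroup.lift.symm.injective
    funext s
    show asm R π (J R π (QuotientAddGroup.mk (FJK.sym s.1 s.2))) = FJK.assemblyPre R Γ (FJK.sym s.1 s.2)
    refine (congrArg (asm R π) (J_mk R π s.1 s.2)).trans ?_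
    refine Eq.trans ?_ (FJK.assemblyPre_sym s.1 s.2).symm
    refine (asm_cl R π _ _).trans ?_
    exact k1_comp_group (imHom π s.1) ((im π s.1).1.comap π).subtype s.2
  exact DFunLike.congr_fun h z

/-- The subgroup of the colimit generated by the classes coming from the finite subgroups of the
groups `π⁻¹(H)`. -/
def finPart : AddSubgroup (PColim R π) :=
  AddSubgroup.closure {z | ∃ (H : Y69.FinSub G) (F : Subgroup Γ) (_ : Finite F)
    (h : F ≤ H.1.comap π) (x : FJ.K1 (MonoidAlgebra R F)),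
      z = PColim.cl R π H (FJ.K1.map (mapDomainRingHom R (Subgroup.inclusion h)) x)}

theorem finPart_le : finPart R π ≤ (J R π).range := by
  unfold finPart
  rw [AddSubgroup.closure_le]
  rintro z ⟨H, F, hF, h, x, rfl⟩
  let F' : Y69.FinSub Γ := ⟨F, hF⟩
  refine ⟨QuotientAddGroup.mk (FJK.sym F' x), ?_⟩
  refine (J_mk R π F' x).trans ?_
  have h' : ∀ y ∈ (im π F').1, π 1 * y * (π 1)⁻¹ ∈ H.1 := by
    rintro y ⟨z, hz, rfl⟩
    rw [map_one, one_mul, inv_one, mul_one]
    exact h hz
  refine (cl_conj R (1 : Γ) (im π F') H h' _).symm.trans ?_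
  congr 1
  refine (k1_comp_group (imHom π F') (conjP π 1 h') x).trans ?_
  congr 2
  apply congrArg
  ext y
  show (1 : Γ) * (y : Γ) * 1⁻¹ = y
  rw [one_mul, inv_one, mul_one]

/-- rational injectivity on the part which comes from finite subgroups -/
theorem main (hR : ∀ (x : FJK.ColimK1 R Γ) (n : ℕ), 0 < n → n • FJK.assembly R Γ x = 0 →
    ∃ l : ℕ, 0 < l ∧ l • x = 0) (z : PColim R π) (hz : z ∈ finPart R π) (n : ℕ) (hn : 0 < n)
    (h : n • asm R π z = 0) : ∃ l : ℕ, 0 < l ∧ l • z = 0 := by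
  obtain ⟨x, rfl⟩ := finPart_le R π hz
  rw [asm_J] at h
  obtain ⟨l, hl, h1⟩ := hR x n hn h
  exact ⟨l, hl, by rw [← map_nsmul, h1, map_zero]⟩

end

end Pool.Agent.L7h59.LF
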